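import Pool.Agent.Lib.MP_023d06_ag.Bridge

/-!
# MP_023d06_ag : the cone conjecture fails

`G = SL_3` (split over `F_2`), `μ(t) = diag(t, 1, t⁻¹)`.  Then `P = P_-` is the group of lower
triangular matrices, `Q` the group of upper triangular matrices, `L = M` the diagonal torus and
the zip group is `E = {(x, y) : x ∈ P, y ∈ Q, y_ii = x_ii ^ 2}` (`ZipGroup 2`).  A morphism
`ζ : X ⟶ [E \ G]` is an `E`-torsor `π : T ⟶ X` with an `E`-equivariant morphism `γ : T ⟶ G`
(`ZipMap k 2 X`).  Since `P` is a Borel subgroup, `V_I(λ)` is the line bundle of the character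
`(x, y) ↦ ∏ x_ii ^ λ_i`, and its global sections over `X` are the functions `f` on `T` with
`f(e t) = λ(x) f(t)` (`EScheme.IsSection`); `EScheme.cone` is the saturated cone of the weights
with a nonzero section: for `Z : ZipMap k 2 X` this is `C_X`, and for the `E`-scheme
`SLE k 2 = SL_3` it is the zip cone.
-/

open CategoryTheory AlgebraicGeometry Pool.Agent.Lib.MP_023d06_ag.St

namespace Pool.Agent.Results.MP_023d06_ag.ConeConjectureFails

/-- The cone conjecture is false: over every field `k` of characteristic `2` (in particular over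
an algebraic closure of `F_2`) there is a proper `k`-scheme `X` with a morphism
`ζ : X ⟶ G-Zip^μ`, `G = SL_3`, `μ(t) = diag(t, 1, t⁻¹)`, which is smooth and surjective on every
connected component of `X`, such that `C_X ≠ C_zip`; the weight `(-2, 1, 0)` is in `C_X` and not
in `C_zip`. -/
theorem result (k : Type) [Field k] [CharP k 2] :
    ∃ (X : Over (Spec (CommRingCat.of k))) (Z : ZipMap k 2 X), CondI X ∧ Z.CondII ∧
      Z.cone ≠ (SLE k 2).cone ∧
      (![-2, 1, 0] : Fin 3 → ℤ) ∈ Z.cone ∧ (![-2, 1, 0] : Fin 3 → ℤ) ∉ (SLE k 2).cone := by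
  have h2 : (2 : k) = 0 := by exact_mod_cast CharP.cast_eq_zero k 2
  obtain ⟨X, Z, hX, hZ, hw, hw'⟩ := Pool.Agent.Lib.MP_023d06_ag.main' k h2
  exact ⟨X, Z, hX, hZ, fun h => hw' (h ▸ hw), hw, hw'⟩

end Pool.Agent.Results.MP_023d06_ag.ConeConjectureFails
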